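import Pool.Agent.T2H66.BF.Elem

/-!
# MP_291637_al: countable groups with exact factorizations are not B-groups

`IsBGroup` is the definition of the starting file `NotBGroup`: every primitive permutation group with a
regular subgroup isomorphic to `X` is doubly transitive.

1. A countable group `X = A B` with `A ∩ B = 1` and infinite subgroups `A`, `B` is not a B-group: it acts
regularly on the squares of an infinite chess board, and the automorphism group of the rook graph is
primitive, but not doubly transitive.
2. Such a factorization is constructed for every group `X` with a normal subgroup `N` and an infinite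
elementary abelian `p`-subgroup `E` such that `E ∩ N = 1` and `E N` has finite index.
3. In particular no infinite countable group with an abelian subgroup of finite index and of squarefree
exponent is a B-group. Many of these groups do not have the property (†) of the problem, for
instance the semidirect products of an infinite elementary abelian group with a cyclic group of
order four, the generator of which inverts it.
-/

set_option autoImplicit false

namespace Pool.Agent.Results.MP_291637_al.Factorizations

open Pool.Agent.Results.MP_291637_al.NotBGroup (IsBGroup)

/-- Countable groups which are not B-groups: (1) groups with an exact factorization into two infinite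
subgroups, (2) groups with an infinite elementary abelian `p`-subgroup `E` and a normal subgroup `N` such
that `E ∩ N = 1` and `E N` has finite index, (3) infinite groups which have an abelian subgroup of finite
index of squarefree exponent. -/
theorem result (X : Type) [Group X] [Infinite X] [Countable X] :
    (∀ A B : Subgroup X, Infinite A → Infinite B → A ⊓ B = ⊥ →
      (∀ x : X, ∃ a ∈ A, ∃ b ∈ B, x = a * b) → ¬ IsBGroup X) ∧
    (∀ (p : ℕ) (E N : Subgroup X), p.Prime → Infinite E → (∀ x ∈ E, x ^ p = 1) →
      (∀ x ∈ E, ∀ y ∈ E, x * y = y * x) → N.Normal → E ⊓ N = ⊥ → (E ⊔ N).FiniteIndex →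
      ¬ IsBGroup X) ∧
    (∀ (n : ℕ) (V : Subgroup X), Squarefree n → V.FiniteIndex → (∀ x ∈ V, x ^ n = 1) →
      (∀ x ∈ V, ∀ y ∈ V, x * y = y * x) → ¬ IsBGroup X) := by
  refine ⟨?_, ?_, ?_⟩
  · intro A B hA hB hAB hX
    exact Pool.Agent.T2H66.BF.factor A B hAB hX
  · intro p E N hp hE hE1 hE2 hN hEN hfi
    have : Fact p.Prime := ⟨hp⟩
    exact Pool.Agent.T2H66.BF.split (p := p) E N hE1 hE2 hEN hfi
  · intro n V hn hV hV1 hV2
    exact Pool.Agent.T2H66.BF.sqfree n hn V hV1 hV2

end Pool.Agent.Results.MP_291637_al.Factorizations
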